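import Pool.Agent.Run7.h317.LV.SPi2

/-!
# Values of periodic Dirichlet series with arbitrary complex coefficients outside rational vector spaces; odd
zeta values combined with powers of `π`

For a periodic function `f : ℕ → ℂ` let `L(f, i) = ∑_{n ≥ 1} f(n) / n^i`.

* **Vector spaces.** Let `V ⊆ ℂ` be a rational vector space of dimension at most `D` and let `f` be a function
  with period `M` and values in `V`, not `0` everywhere. If `D ≤ c log log s` and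
  `D² M ≤ c² s log log s / log s`, then for each parity at least `(c/D) √(s log log s / (M log s))` of the
  `i ≤ s` of this parity have `L(f, i) ∉ V`. If only `D ≤ c log s` and `M ≤ s^(1/4)`, there are at least
  `s^(1/4)` such `i`. Here `s ≥ s₀`, and `c` and `s₀` are absolute constants, they depend neither on `V` nor
  on `f`. The coefficients are arbitrary complex numbers (for instance polynomials in `π`).
* **Simultaneous approximation.** If `f` is real, `q ≥ q₀(f, s, D)`, and the numbers `q f(n)` are nearer than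
  `q^(-1/D)` to integers, then for as many `i` the distance of `q L(f, i)` to the nearest integer is at least
  `q^(-1/D)`.
* **Odd zeta values and powers of `π`.** For odd `i` let `r_i` be the rational number with
  `β(i) = 1 - 1/3^i + 1/5^i - ⋯ = r_i π^i`. Let `α, β ∈ V` be not both `0`. For as many odd `i ≤ s` as above
  (with `M = 4`) `α ζ(i) + β r_i π^i` is not in `V`. So for polynomials `P`, `Q` of degree less than `D`,
  not both `0`, the number `P(π) ζ(i) + Q(π) r_i π^i` is for as many odd `i ≤ s` not a polynomial in `π` of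
  degree less than `D` with rational coefficients.

Proof: Hankel determinants of linear forms (`Pool/Agent/W165/OZ`, `Pool/Agent/TH818/SA`) with the
functionals `Q ↦ ∑_d w_d ∑_{u > M d} f(u) R(u/(M d)) Q(y(u/(M d)))`; the coefficients and the values are
replaced by rational numbers with the same denominator `q` (Dirichlet's theorem for a basis of `V`), and the
determinants stay different from `0` and small.
-/

set_option autoImplicit false

open Polynomial Filter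

namespace Pool.Agent.Results.MP_a89d6d_nt.ArbitraryCoefficients

open Run7.h317.LV

/-- `L(f, i) = ∑_{n ≥ 1} f(n) / n^i`. -/
noncomputable def value (f : ℕ → ℂ) (i : ℕ) : ℂ := ∑' n : ℕ, f (n + 1) / ((n : ℂ) + 1) ^ i

/-- `f` has the period `M` and is not `0` everywhere. -/
def IsPeriodic {A : Type} [Zero A] (M : ℕ) (f : ℕ → A) : Prop := (∀ n, f (n + M) = f n) ∧ ∃ n, f n ≠ 0

/-- `N` is at most the bound which is proved: `(1 / (2000 D)) √(s log log s / (M log s))` in the first and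
`s^(1/4)` in the second range of the parameters. -/
def AtLeast (s D M : ℕ) (N : ℝ) : Prop :=
  ((D : ℝ) ≤ (1 / 2000) * Real.log (Real.log s) →
    (D : ℝ) ^ 2 * M ≤ (1 / 2000) ^ 2 * (s * Real.log (Real.log s) / Real.log s) →
      (1 / 2000) / D * Real.sqrt (s * Real.log (Real.log s) / (M * Real.log s)) ≤ N) ∧
  ((D : ℝ) ≤ (1 / 1000) * Real.log s → (M : ℝ) ≤ (s : ℝ) ^ (1 / 4 : ℝ) → (s : ℝ) ^ (1 / 4 : ℝ) ≤ N)

/-- the character `1, 0, -1, 0` modulo `4` -/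
def chi (n : ℕ) : ℤ := if n % 4 = 1 then 1 else if n % 4 = 3 then -1 else 0

/-- The main theorem. -/
theorem result :
    -- vector spaces
    (∃ s₀ : ℕ, ∀ s ≥ s₀, ∀ D M : ℕ, 1 ≤ D → 1 ≤ M →
      ∀ V : Submodule ℚ ℂ, FiniteDimensional ℚ V → Module.finrank ℚ V ≤ D →
      ∀ f : ℕ → ℂ, (∀ n, f n ∈ V) → IsPeriodic M f → ∀ a < 2,
      AtLeast s D M (Set.ncard {i : ℕ | 2 ≤ i ∧ i ≤ s ∧ i % 2 = a ∧ value f i ∉ V})) ∧
    -- simultaneous approximation
    (∃ s₀ : ℕ, ∀ s ≥ s₀, ∀ D M : ℕ, 1 ≤ D → 1 ≤ M → ∀ f : ℕ → ℝ, IsPeriodic M f → ∀ a < 2,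
      ∃ q₀ : ℕ, ∀ q ≥ q₀, (∀ n, ∃ p : ℤ, |(q : ℝ) * f n - p| < (q : ℝ) ^ (-(1 / (D : ℝ)))) →
      AtLeast s D M (Set.ncard {i : ℕ | 2 ≤ i ∧ i ≤ s ∧ i % 2 = a ∧
        ∀ p : ℤ, (q : ℝ) ^ (-(1 / (D : ℝ))) ≤
          |(q : ℝ) * (∑' n : ℕ, f (n + 1) / ((n : ℝ) + 1) ^ i) - p|})) ∧
    -- odd zeta values and powers of `π`
    ∃ r : ℕ → ℚ, (∀ i, 3 ≤ i → Odd i → r i ≠ 0 ∧
      ∑' n : ℕ, (chi (n + 1) : ℝ) / ((n : ℝ) + 1) ^ i = r i * Real.pi ^ i) ∧
    ∃ s₀ : ℕ, ∀ s ≥ s₀, ∀ D : ℕ, 1 ≤ D →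
      (∀ V : Submodule ℚ ℂ, FiniteDimensional ℚ V → Module.finrank ℚ V ≤ D →
        ∀ α ∈ V, ∀ β ∈ V, α ≠ 0 ∨ β ≠ 0 →
        AtLeast s D 4 (Set.ncard {i : ℕ | 3 ≤ i ∧ i ≤ s ∧ Odd i ∧
          α * riemannZeta i + β * (r i * (Real.pi : ℂ) ^ i) ∉ V})) ∧
      ∀ P Q : ℚ[X], P.degree < D → Q.degree < D → P ≠ 0 ∨ Q ≠ 0 →
        AtLeast s D 4 (Set.ncard {i : ℕ | 3 ≤ i ∧ i ≤ s ∧ Odd i ∧ ∀ S : ℚ[X], S.degree < D →
          aeval (Real.pi : ℂ) P * riemannZeta i + aeval (Real.pi : ℂ) Q * (r i * (Real.pi : ℂ) ^ i) ≠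
            aeval (Real.pi : ℂ) S}) := by
  obtain ⟨s1, hs1⟩ := par1'
  obtain ⟨s2, hs2⟩ := par2
  obtain ⟨s3, hs3⟩ := par1
  refine ⟨⟨max s1 s2, fun s hs D M hD hM V hV hVD f hfV hf a ha => ⟨fun h1 h2 => ?_, fun h1 h2 => ?_⟩⟩,
    ⟨max (max s1 s2) s3, fun s hs D M hD hM f hf a ha => ?_⟩, rpi, fun i hi ho => ⟨rpi_ne i hi ho, ?_⟩,
    max s1 s2, fun s hs D hD => ⟨fun V hV hVD α hα β hβ h0 => ⟨fun h1 h2 => ?_, fun h1 h2 => ?_⟩,
      fun P Q hP hQ h0 => ⟨fun h1 h2 => ?_, fun h1 h2 => ?_⟩⟩⟩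
  · obtain ⟨B, hB, hB2⟩ := hs1 s ((le_max_left _ _).trans hs) D M hD hM h1 h2
    exact hB2.trans (v_subCC s D M B hM hB V hV hVD f hfV hf.1 hf.2 a ha)
  · obtain ⟨B, hB, hB2⟩ := hs2 s ((le_max_right _ _).trans hs) D M hM h1 h2
    exact hB2.trans (v_subCC s D M B hM hB V hV hVD f hfV hf.1 hf.2 a ha)
  · have hs1' : s1 ≤ s := ((le_max_left _ _).trans (le_max_left _ _)).trans hs
    have hs2' : s2 ≤ s := ((le_max_right _ _).trans (le_max_left _ _)).trans hs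
    have hs3' : s3 ≤ s := (le_max_right _ _).trans hs
    -- the two ranges
    have e1 : ∃ q₀ : ℕ, ∀ q ≥ q₀, (∀ n, ∃ p : ℤ, |(q : ℝ) * f n - p| < (q : ℝ) ^ (-(1 / (D : ℝ)))) →
        ((D : ℝ) ≤ (1 / 2000) * Real.log (Real.log s) →
        (D : ℝ) ^ 2 * M ≤ (1 / 2000) ^ 2 * (s * Real.log (Real.log s) / Real.log s) →
        (1 / 2000) / D * Real.sqrt (s * Real.log (Real.log s) / (M * Real.log s)) ≤
        (Set.ncard {i : ℕ | 2 ≤ i ∧ i ≤ s ∧ i % 2 = a ∧ ∀ p : ℤ, (q : ℝ) ^ (-(1 / (D : ℝ))) ≤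
          |(q : ℝ) * (∑' n : ℕ, f (n + 1) / ((n : ℝ) + 1) ^ i) - p|} : ℝ)) := by
      by_cases hc : (D : ℝ) ≤ (1 / 2000) * Real.log (Real.log s) ∧
          (D : ℝ) ^ 2 * M ≤ (1 / 2000) ^ 2 * (s * Real.log (Real.log s) / Real.log s)
      · have hL : 0 ≤ Real.log (Real.log s) := by
          have : (0 : ℝ) ≤ D := Nat.cast_nonneg D
          linarith [hc.1]
        have hS : 0 ≤ s * Real.log (Real.log s) / Real.log s := by
          have : (0 : ℝ) ≤ (D : ℝ) ^ 2 * M := by positivity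
          have := hc.2
          nlinarith
        obtain ⟨B, hB, hB2⟩ := hs3 s hs3' D M hD hM (hc.1.trans (by linarith))
          (hc.2.trans (by nlinarith))
        obtain ⟨q0, hq0⟩ := v_simC s D M B hD hM hB f hf.1 hf.2 a ha
        refine ⟨q0, fun q hq hfq _ _ => le_trans ?_ (hB2.trans (hq0 q hq hfq))⟩
        apply mul_le_mul_of_nonneg_right _ (Real.sqrt_nonneg _)
        have hDr : (0 : ℝ) < D := by exact_mod_cast hD
        apply div_le_div_of_nonneg_right (by norm_num) hDr.le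
      · exact ⟨0, fun q _ _ g1 g2 => absurd ⟨g1, g2⟩ hc⟩
    have e2 : ∃ q₀ : ℕ, ∀ q ≥ q₀, (∀ n, ∃ p : ℤ, |(q : ℝ) * f n - p| < (q : ℝ) ^ (-(1 / (D : ℝ)))) →
        ((D : ℝ) ≤ (1 / 1000) * Real.log s → (M : ℝ) ≤ (s : ℝ) ^ (1 / 4 : ℝ) →
        (s : ℝ) ^ (1 / 4 : ℝ) ≤
        (Set.ncard {i : ℕ | 2 ≤ i ∧ i ≤ s ∧ i % 2 = a ∧ ∀ p : ℤ, (q : ℝ) ^ (-(1 / (D : ℝ))) ≤
          |(q : ℝ) * (∑' n : ℕ, f (n + 1) / ((n : ℝ) + 1) ^ i) - p|} : ℝ)) := by
      by_cases hc : (D : ℝ) ≤ (1 / 1000) * Real.log s ∧ (M : ℝ) ≤ (s : ℝ) ^ (1 / 4 : ℝ)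
      · obtain ⟨D', rfl⟩ : ∃ D', D = D' + 1 := ⟨D - 1, by omega⟩
        obtain ⟨B, hB, hB2⟩ := hs2 s hs2' D' M hM (by
          have := hc.1
          push_cast at this
          linarith) hc.2
        obtain ⟨q0, hq0⟩ := v_simC s (D' + 1) M B hD hM hB f hf.1 hf.2 a ha
        exact ⟨q0, fun q hq hfq _ _ => hB2.trans (hq0 q hq hfq)⟩
      · exact ⟨0, fun q _ _ g1 g2 => absurd ⟨g1, g2⟩ hc⟩
    obtain ⟨q1, hq1⟩ := e1
    obtain ⟨q2, hq2⟩ := e2
    exact ⟨max q1 q2, fun q hq hfq => ⟨hq1 q ((le_max_left _ _).trans hq) hfq,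
      hq2 q ((le_max_right _ _).trans hq) hfq⟩⟩
  · exact beta_val i hi ho
  · obtain ⟨B, hB, hB2⟩ := hs1 s ((le_max_left _ _).trans hs) D 4 hD (by norm_num) h1 h2
    exact hB2.trans (v_piC s D B hB V hV hVD α β hα hβ h0)
  · obtain ⟨B, hB, hB2⟩ := hs2 s ((le_max_right _ _).trans hs) D 4 (by norm_num) h1 h2
    exact hB2.trans (v_piC s D B hB V hV hVD α β hα hβ h0)
  · obtain ⟨B, hB, hB2⟩ := hs1 s ((le_max_left _ _).trans hs) D 4 hD (by norm_num) h1 h2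
    exact hB2.trans (v_polyC s D B hB P Q hP hQ h0)
  · obtain ⟨B, hB, hB2⟩ := hs2 s ((le_max_right _ _).trans hs) D 4 (by norm_num) h1 h2
    exact hB2.trans (v_polyC s D B hB P Q hP hQ h0)

end Pool.Agent.Results.MP_a89d6d_nt.ArbitraryCoefficients
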