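import Pool.Agent.Run7.h851.T.Final

/-- There are `j ∈ {5, 7}` and an odd `k` with `j < k ≤ 63` such that `1, ζ(3), ζ(j), ζ(k)` are linearly independent
over `ℚ`. -/
theorem Pool.Agent.Results.MP_a89d6d_nt.FourOddZetaUpTo63.result :
    ∃ j k : ℕ, (j = 5 ∨ j = 7) ∧ Odd k ∧ j < k ∧ k ≤ 63 ∧
      LinearIndependent ℚ ![(1 : ℝ), ∑' n : ℕ, 1 / ((n : ℝ) + 1) ^ 3, ∑' n : ℕ, 1 / ((n : ℝ) + 1) ^ j,
        ∑' n : ℕ, 1 / ((n : ℝ) + 1) ^ k] :=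
  Pool.Agent.Run7.h851.T.Z_explicit
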