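import Pool.Agent.Run7.h838.OZ.Win
import Pool.Agent.Run7.h838.LF.Gz
import Pool.Agent.Results.MP_c2395a_nt.PlaneDistanceZeta7
import Pool.Agent.Results.MP_c2395a_nt.ZetaFiveMeasureSharp

/-!
# Odd zeta values over fields of Liouville numbers

A field `F` of real numbers is simultaneously Liouville (`SimLiouville F`) if for any finitely many
elements `x_1, …, x_m` of `F` and all `w`, `q₀` there is `q ≥ q₀` with `‖q x_i‖ < q ^ (-w)` for all
`i`. The field `ℚ` is one of them, every Liouville number lies in such a field, and some of these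
fields have the power of the continuum. We extend the theorems on the irrationality and on the
linear independence of odd zeta values from `ℚ` to all simultaneously Liouville fields.

(1) For large `s` (uniformly in `F`) and `1 ≤ D ≤ log log s / 2000` every `F`-vector space `W ⊆ ℝ` of
dimension at most `D` misses at least `(1 / (2000 D)) √(s log log s / log s)` of the numbers `ζ(i)`,
`i ≤ s` odd. For instance `W` is a field extension of `F` of degree at most `D`, or the space of the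
values at `π` of the polynomials of degree less than `D` with coefficients in `F`.

(2) There is a `K₀` such that for `K ≥ K₀`, every odd `s ≥ 1` and every `F` the numbers `ζ(i)`,
`s < i ≤ K s` odd, span an `F`-vector space of dimension at least `log K / 125 - 1` (Ball and Rivoal
for `F = ℚ`, `s = 1`, with another constant), and every `F`-vector space of dimension at most `D`,
`D + 1 ≤ log K / 125`, misses at least `exp (-31 (D + 1)) √(K / log K)` of them. All odd zeta values
span an `F`-vector space of infinite dimension.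

(3) `ζ(5)` does not lie in `F`, and `1, ζ(3), ζ(5), ζ(7)` span an `F`-vector space of
dimension at least three: `ζ(5)` and `ζ(7)` are not both of the form `x + y ζ(3)`, `x, y ∈ F`.
-/

set_option autoImplicit false

namespace Pool.Agent.Results.MP_a89d6d_nt.OverLiouvilleFields

open Filter Pool.Agent.Q163.LE

/-- `ζ(i) = ∑ 1 / n^i` -/
noncomputable def zeta (i : ℕ) : ℝ := ∑' n : ℕ, 1 / ((n : ℝ) + 1) ^ i

/-- the odd `i`, `3 ≤ i ≤ s`, for which `ζ(i)` is not in `W` -/
def outside (W : Set ℝ) (s : ℕ) : Set ℕ := {i : ℕ | 3 ≤ i ∧ i ≤ s ∧ Odd i ∧ zeta i ∉ W}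

/-- the odd `i` in the window `s < i ≤ K s` for which `ζ(i)` is not in `W` -/
def outsideWindow (W : Set ℝ) (s K : ℕ) : Set ℕ := {i : ℕ | s < i ∧ i ≤ K * s ∧ Odd i ∧ zeta i ∉ W}

/-- the `F`-vector space spanned by the `ζ(i)`, `s < i ≤ K s` odd -/
noncomputable def windowSpan (F : Subfield ℝ) (s K : ℕ) : Submodule F ℝ :=
  Submodule.span F {x : ℝ | ∃ i : ℕ, s < i ∧ i ≤ K * s ∧ Odd i ∧ x = zeta i}

theorem windowSpan_fd (F : Subfield ℝ) (s K : ℕ) : FiniteDimensional F (windowSpan F s K) := by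
  apply FiniteDimensional.span_of_finite
  refine ((Set.finite_Iic (K * s)).image zeta).subset ?_
  rintro x ⟨i, -, hi, -, rfl⟩
  exact ⟨i, hi, rfl⟩

theorem outside_windowSpan (F : Subfield ℝ) (s K : ℕ) :
    outsideWindow (windowSpan F s K) s K = ∅ := by
  ext i
  simp only [outsideWindow, Set.mem_ofPred_eq, Set.mem_empty_iff_false, iff_false]
  rintro ⟨h1, h2, h3, h4⟩
  exact h4 (Submodule.subset_span ⟨i, h1, h2, h3, rfl⟩)

/-- (1) -/
theorem main : ∃ s0 : ℕ, ∀ s ≥ s0, ∀ D : ℕ, 1 ≤ D → (D : ℝ) ≤ 1 / 2000 * Real.log (Real.log s) →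
    ∀ F : Subfield ℝ, SimLiouville F → ∀ W : Submodule F ℝ, FiniteDimensional F W →
    Module.finrank F W ≤ D →
    1 / (2000 * D) * Real.sqrt (s * Real.log (Real.log s) / Real.log s) ≤
      ((outside W s).ncard : ℝ) := by
  obtain ⟨s0, h⟩ := Run7.h838.OZ.space_odd
  refine ⟨s0, fun s hs D hD1 hD2 F hF W hW hWD => ?_⟩
  refine le_trans (le_of_eq ?_) (h s hs D hD1 hD2 F hF W hW hWD)
  congr 1
  have : (D : ℝ) ≠ 0 := by
    have : 0 < D := hD1
    exact_mod_cast this.ne'
  field_simp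

theorem tend : Tendsto (fun s : ℕ => Real.log s) atTop atTop :=
  Real.tendsto_log_atTop.comp tendsto_natCast_atTop_atTop

/-- (2), outside -/
theorem window : ∃ K0 : ℕ, ∀ K ≥ K0, ∀ s : ℕ, Odd s → ∀ D : ℕ, (D : ℝ) + 1 ≤ Real.log K / 125 →
    ∀ F : Subfield ℝ, SimLiouville F → ∀ W : Submodule F ℝ, FiniteDimensional F W →
    Module.finrank F W ≤ D →
    Real.exp (-(31 * ((D : ℝ) + 1))) * Real.sqrt (K / Real.log K) ≤
      ((outsideWindow W s K).ncard : ℝ) :=
  Run7.h838.OZ.space_window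

/-- (2), the dimension -/
theorem dim : ∃ K0 : ℕ, ∀ K ≥ K0, ∀ s : ℕ, Odd s → ∀ F : Subfield ℝ, SimLiouville F →
    Real.log K / 125 - 1 ≤ Module.finrank F (windowSpan F s K) := by
  obtain ⟨K0, h⟩ := window
  refine ⟨max K0 3, fun K hK s hs F hF => ?_⟩
  have hK0 : K0 ≤ K := (le_max_left _ _).trans hK
  have hK3 : 3 ≤ K := (le_max_right _ _).trans hK
  by_contra hcon
  push Not at hcon
  have hfd := windowSpan_fd F s K
  have h2 := h K hK0 s hs (Module.finrank F (windowSpan F s K)) (by linarith) F hF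
    (windowSpan F s K) hfd le_rfl
  rw [outside_windowSpan, Set.ncard_empty] at h2
  have hK' : (3 : ℝ) ≤ K := by exact_mod_cast hK3
  have hlog : 0 < Real.log K := Real.log_pos (by linarith)
  have h3 : 0 < Real.exp (-(31 * ((Module.finrank F (windowSpan F s K) : ℝ) + 1))) *
      Real.sqrt (K / Real.log K) := by
    have : 0 < K / Real.log K := by positivity
    positivity
  simp only [Nat.cast_zero] at h2
  linarith

theorem inf_dim {F : Subfield ℝ} (hF : SimLiouville F) :
    ¬ FiniteDimensional F (Submodule.span F {x : ℝ | ∃ i : ℕ, 3 ≤ i ∧ Odd i ∧ x = zeta i}) := by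
  intro hfin
  obtain ⟨K0, h⟩ := dim
  obtain ⟨K1, h1⟩ := Filter.eventually_atTop.1 (tend.eventually_ge_atTop
    (125 * ((Module.finrank F (Submodule.span F {x : ℝ | ∃ i : ℕ, 3 ≤ i ∧ Odd i ∧ x = zeta i}) : ℕ)
      + 2 : ℝ)))
  have h2 := h (max K0 K1) (le_max_left _ _) 1 odd_one F hF
  have h3 := h1 (max K0 K1) (le_max_right _ _)
  have h4 : Module.finrank F (windowSpan F 1 (max K0 K1)) ≤
      Module.finrank F (Submodule.span F {x : ℝ | ∃ i : ℕ, 3 ≤ i ∧ Odd i ∧ x = zeta i}) := by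
    apply Submodule.finrank_mono
    apply Submodule.span_mono
    rintro x ⟨i, h1, -, h3, rfl⟩
    refine ⟨i, ?_, h3, rfl⟩
    obtain ⟨k, hk⟩ := h3
    omega
  have h5 : (Module.finrank F (windowSpan F 1 (max K0 K1)) : ℝ) ≤
      Module.finrank F (Submodule.span F {x : ℝ | ∃ i : ℕ, 3 ≤ i ∧ Odd i ∧ x = zeta i}) := by
    exact_mod_cast h4
  linarith

/-- (3), the dimension -/
theorem three {F : Subfield ℝ} (hF : SimLiouville F) (W : Submodule F ℝ)
    (hW : FiniteDimensional F W) (h1 : (1 : ℝ) ∈ W) (h3 : zeta 3 ∈ W) (h5 : zeta 5 ∈ W)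
    (h7 : zeta 7 ∈ W) : 3 ≤ Module.finrank F W := by
  obtain ⟨c, hc, h⟩ := Pool.Agent.Results.MP_c2395a_nt.PlaneDistanceZeta7.result.1
  refine plane hF {3, 5, 7} zeta 1070 c hc ?_ W h1 ?_
  · intro q a b θ H hq hqH hb
    obtain ⟨i, hi, hle⟩ := h q a b θ H hq hqH (hb 3 (by simp)) (hb 5 (by simp)) (hb 7 (by simp))
    refine ⟨i, ?_, hle⟩
    simpa using hi
  · intro i hi
    simp only [Finset.mem_insert, Finset.mem_singleton] at hi
    rcases hi with rfl | rfl | rfl
    · exact h3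
    · exact h5
    · exact h7

/-- (3), `ζ(5)` -/
theorem five {F : Subfield ℝ} (hF : SimLiouville F) : zeta 5 ∉ F := by
  obtain ⟨c, hc, h⟩ := Pool.Agent.Results.MP_c2395a_nt.ZetaFiveMeasureSharp.result
  obtain ⟨j, hj, hj2⟩ := one_outside hF {5} zeta 83 c hc fun p q hq =>
    ⟨5, Finset.mem_singleton_self _, h (p 5) q hq⟩
  rw [Finset.mem_singleton] at hj
  subst hj
  exact hj2

theorem result :
    -- examples of simultaneously Liouville fields
    (∀ ξ : ℝ, Liouville ξ → ∃ F : Subfield ℝ, SimLiouville F ∧ ξ ∈ F) ∧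
    (∀ (T : ℕ → ℝ) (hT : Tendsto T atTop atTop), SimLiouville (ApField T hT)) ∧
    -- (1)
    (∃ s0 : ℕ, ∀ s ≥ s0, ∀ D : ℕ, 1 ≤ D → (D : ℝ) ≤ 1 / 2000 * Real.log (Real.log s) →
      ∀ F : Subfield ℝ, SimLiouville F → ∀ W : Submodule F ℝ, FiniteDimensional F W →
      Module.finrank F W ≤ D →
      1 / (2000 * D) * Real.sqrt (s * Real.log (Real.log s) / Real.log s) ≤
        ((outside W s).ncard : ℝ)) ∧
    -- (2)
    (∃ K0 : ℕ, ∀ K ≥ K0, ∀ s : ℕ, Odd s → ∀ F : Subfield ℝ, SimLiouville F →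
      Real.log K / 125 - 1 ≤ Module.finrank F (windowSpan F s K)) ∧
    (∃ K0 : ℕ, ∀ K ≥ K0, ∀ s : ℕ, Odd s → ∀ D : ℕ, (D : ℝ) + 1 ≤ Real.log K / 125 →
      ∀ F : Subfield ℝ, SimLiouville F → ∀ W : Submodule F ℝ, FiniteDimensional F W →
      Module.finrank F W ≤ D →
      Real.exp (-(31 * ((D : ℝ) + 1))) * Real.sqrt (K / Real.log K) ≤
        ((outsideWindow W s K).ncard : ℝ)) ∧
    (∀ F : Subfield ℝ, SimLiouville F →
      ¬ FiniteDimensional F (Submodule.span F {x : ℝ | ∃ i : ℕ, 3 ≤ i ∧ Odd i ∧ x = zeta i})) ∧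
    -- (3)
    ∀ F : Subfield ℝ, SimLiouville F → zeta 5 ∉ F ∧ ∀ W : Submodule F ℝ, FiniteDimensional F W →
      (1 : ℝ) ∈ W → zeta 3 ∈ W → zeta 5 ∈ W → zeta 7 ∈ W → 3 ≤ Module.finrank F W :=
  ⟨fun _ hξ => Run7.h838.LF.liouville_field hξ, sim_apField, main, dim, window,
    fun _ hF => inf_dim hF,
    fun _ hF => ⟨five hF, fun W hW h1 h3 h5 h7 => three hF W hW h1 h3 h5 h7⟩⟩

end Pool.Agent.Results.MP_a89d6d_nt.OverLiouvilleFields
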