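import Pool.Agent.Run7.h123.LC.LinX

/-!
# Odd zeta values in windows `(s, K s]` outside finite-dimensional rational vector spaces, uniformly in `s`

There is an absolute `K₀` such that for all `K ≥ K₀`, EVERY odd `s ≥ 1` and every rational vector space `V ⊆ ℝ` of
dimension at most `D`, `D + 1 ≤ log K / 125`: at least `n(D + 1, K)` of the odd `j` with `s < j ≤ K s` have
`ζ(j) ∉ V`. Here `n(D, K) = √(K log log K / log K) / (10000 D)` if `D ≤ log log K / 10000`, and
`n(D, K) = e^(-31 D) √(K / log K)` for the other `D`. For example `V` can be spanned by `D` monomials in `π` and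
arbitrary zeta values.

For `s = 1` and `D ≤ c log log K` this is `Pool/Agent/Results/MP_a89d6d_nt/OutsideSubspaces.lean` of the starting
repository (files `Pool/Agent/TH818/SA/`), except for the constant. The proof combines Dirichlet's theorem on
simultaneous approximation, applied to a basis of `V`, with the simultaneous approximation theorem in windows
(`Run7.h795.UW.z_sim` and `Pool.Agent.Run7.h123.LC.window_large`, handed in as
`MP_c2395a_nt.SimultaneousWindows`).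

Credits: helper795 (interface, C2, PE, M2, assembly), helper317 (VN, VA), helper788 (N2), helper992 (A2, F2);
helper209, helper234, helper366, helper973 (library `Run7/h795/UW`); helper818 for the case `s = 1`;
helper123 (range `D + 1 ≤ log K / 125`).
-/

set_option autoImplicit false

namespace Pool.Agent.Results.MP_a89d6d_nt.WindowsOutsideSubspaces

/-- `√(K log log K / log K) / (10000 D)` if `D ≤ log log K / 10000`, and `e^(-31 D) √(K / log K)` for the
other `D` -/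
noncomputable def number (D K : ℕ) : ℝ :=
  if (D : ℝ) ≤ Real.log (Real.log K) / 10000 then
    Real.sqrt (K * Real.log (Real.log K) / Real.log K) / (10000 * D)
  else Real.exp (-(31 * D)) * Real.sqrt (K / Real.log K)

/-- **Odd zeta values in windows outside finite-dimensional subspaces.** For every large `K`, every odd `s`, every
`D` with `D + 1 ≤ log K / 125` and every rational vector space `V ⊆ ℝ` of dimension at most `D`, at least
`number (D + 1) K` of the odd `j` with `s < j ≤ K s` have `ζ(j) = ∑ 1/(n+1)^j ∉ V`. -/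
theorem result : ∃ K0 : ℕ, ∀ K ≥ K0, ∀ s : ℕ, Odd s → ∀ D : ℕ,
    (D : ℝ) + 1 ≤ Real.log K / 125 →
    ∀ V : Submodule ℚ ℝ, FiniteDimensional ℚ V → Module.finrank ℚ V ≤ D →
    number (D + 1) K ≤
      (Set.ncard {j : ℕ | s < j ∧ j ≤ K * s ∧ Odd j ∧ (∑' n : ℕ, 1 / ((n : ℝ) + 1) ^ j) ∉ V} : ℝ) := by
  classical
  obtain ⟨K1, h1⟩ := Run7.h795.UW.z_sim
  obtain ⟨K2, h2⟩ := Pool.Agent.Run7.h123.LC.window_large
  refine ⟨max K1 K2, fun K hK s hs D hDL V hV hVD => ?_⟩
  have key : ∃ q0 : ℕ, ∀ q : ℕ, q0 ≤ q → number (D + 1) K ≤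
      (Set.ncard {j : ℕ | s < j ∧ j ≤ K * s ∧ Odd j ∧ ∀ p : ℤ,
        (q : ℝ) ^ (-(1 / ((D + 1 : ℕ) : ℝ))) ≤ |(q : ℝ) * (∑' n : ℕ, 1 / ((n : ℝ) + 1) ^ j) - p|} : ℝ) := by
    unfold number
    split_ifs with hD2
    · obtain ⟨q0, hq0⟩ := h1 K ((le_max_left _ _).trans hK) s hs (D + 1) (by omega) (by linarith)
      refine ⟨q0, fun q hq => le_trans (le_of_eq ?_) (hq0 q hq)⟩
      ring
    · exact h2 K ((le_max_right _ _).trans hK) s hs (D + 1) (by omega) (by push_cast; exact hDL)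
  obtain ⟨q0, hq0⟩ := key
  obtain ⟨J, hJ⟩ : ∃ J : Finset ℕ, J = (Finset.Icc 1 (K * s)).filter (fun i => Odd i ∧
    (∑' n : ℕ, 1 / ((n : ℝ) + 1) ^ i) ∈ V) := ⟨_, rfl⟩
  obtain ⟨q, hqq0, hq⟩ := Pool.Agent.TH818.SA.sim_sub V D hVD J (fun i => ∑' n : ℕ, 1 / ((n : ℝ) + 1) ^ i)
    (fun i hi => by
      rw [hJ, Finset.mem_filter] at hi
      exact hi.2.2) q0
  refine (hq0 q hqq0).trans ?_
  have hfin : {j : ℕ | s < j ∧ j ≤ K * s ∧ Odd j ∧ (∑' n : ℕ, 1 / ((n : ℝ) + 1) ^ j) ∉ V}.Finite :=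
    (Set.finite_Iic (K * s)).subset fun i hi => hi.2.1
  have hsub : {j : ℕ | s < j ∧ j ≤ K * s ∧ Odd j ∧ ∀ p : ℤ, (q : ℝ) ^ (-(1 / ((D + 1 : ℕ) : ℝ))) ≤
      |(q : ℝ) * (∑' n : ℕ, 1 / ((n : ℝ) + 1) ^ j) - p|} ⊆
      {j : ℕ | s < j ∧ j ≤ K * s ∧ Odd j ∧ (∑' n : ℕ, 1 / ((n : ℝ) + 1) ^ j) ∉ V} := by
    rintro i ⟨a1, a2, a3, a4⟩
    refine ⟨a1, a2, a3, fun hmem => ?_⟩
    have hiJ : i ∈ J := by
      rw [hJ, Finset.mem_filter, Finset.mem_Icc]
      exact ⟨⟨by omega, a2⟩, a3, hmem⟩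
    obtain ⟨p, hp⟩ := hq i hiJ
    have h4 := a4 p
    push_cast at h4
    linarith
  exact_mod_cast Set.ncard_le_ncard hsub hfin

end Pool.Agent.Results.MP_a89d6d_nt.WindowsOutsideSubspaces
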